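import Pool.Agent.Q260.RL.Log

set_option autoImplicit false

/-!
# The support of the distribution of the normalised prime gaps contains two fifths of every long interval

Let `P` be the set of the `x ≥ 0` such that for every `ε > 0` the indices `n` with
`|(p_{n+1} - p_n) / log n - x| < ε` have positive upper density. For every `ε > 0` every interval `[u, u + T]`,
`u ≥ 0`, `T ≥ T₀(ε)`, meets `P` in a set of measure at least `(2/5 - ε) T`. (The starting file
`MP_3499c5_nt.SupportOfDistribution` has `(T - C) / 4` for the intervals `[0, T]`.)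

Inputs from the starting files: among the differences of any five real numbers one is in `P`
(`Pool.Agent.H361R2.PP.fiv`, helper361 and others), and the configuration theorem for sets of integers of which
arbitrarily divisible dilates have upper Banach density above `3/5` (`Pool.Agent.W142.TF.s_maiF`, helper142 and
others). The passage to sets of real numbers is in `Pool.Agent.Q260.RL`.
-/

open MeasureTheory

namespace Pool.Agent.Results.MP_3499c5_nt.TwoFifthsSupport

/-- The `x ≥ 0` such that for every `ε > 0` there is `c > 0` such that for arbitrarily large `N` at least `c N` of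
the integers `n` with `2 ≤ n ≤ N` satisfy `|(p_{n+1} - p_n) / log n - x| < ε`; here
`p_n = Nat.nth Nat.Prime (n - 1)` is the `n`-th prime. -/
def P : Set ℝ := {x : ℝ | 0 ≤ x ∧ ∀ ε : ℝ, 0 < ε → ∃ c : ℝ, 0 < c ∧ ∀ N₀ : ℕ, ∃ N : ℕ, N₀ ≤ N ∧
  c * N ≤ ({n : ℕ | n ∈ Finset.Icc 2 N ∧
    |((Nat.nth Nat.Prime n : ℝ) - Nat.nth Nat.Prime (n - 1)) / Real.log n - x| < ε}.ncard : ℝ)}

/-- For every `ε > 0` there is `T₀` such that the set `P` fills at least the proportion `2/5 - ε` of every interval
`[u, u + T]` with `u ≥ 0` and `T ≥ T₀`. -/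
theorem result (ε : ℝ) (hε : 0 < ε) : ∃ T₀ : ℝ, ∀ T : ℝ, T₀ ≤ T → ∀ u : ℝ, 0 ≤ u →
    ENNReal.ofReal ((2 / 5 - ε) * T) ≤ volume (P ∩ Set.Icc u (u + T)) :=
  Q260.RL.dens_LP' ε hε

end Pool.Agent.Results.MP_3499c5_nt.TwoFifthsSupport
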